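import Pool.Agent.X166.BZD

/-!
# Vector balancing in convex bodies with Gaussian barycentre at the origin

Q1 of the problem has a positive answer: the balancing constant of a convex body with Gaussian
barycentre at the origin is bounded by a non-increasing function of its Gaussian measure, in all
dimensions.
-/

set_option autoImplicit false

namespace Pool.Agent.Results.MP_0ffb5f_gt.CentredBodies

open MeasureTheory ProbabilityTheory Set
open scoped ENNReal Pointwise

/-- `β(B, V)`: the supremum over all `n`-tuples `u` of vectors of the closed Euclidean unit ball of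
the minimum over all signs of the gauge of the signed sum. -/
noncomputable def beta {n : ℕ} (V : Set (EuclideanSpace ℝ (Fin n))) : ℝ≥0∞ :=
  ⨆ u : Fin n → Metric.closedBall (0 : EuclideanSpace ℝ (Fin n)) 1, ⨅ ε : Fin n → ℤˣ,
    ENNReal.ofReal (gauge V (∑ i, ((ε i : ℤ) : ℝ) • (u i : EuclideanSpace ℝ (Fin n))))

/-- Q1 -/
def Q1 : Prop := ∃ g : ℝ → ℝ, AntitoneOn g (Ioc 0 1) ∧ (∀ p ∈ Ioc (0 : ℝ) 1, 0 ≤ g p) ∧
  ∀ n : ℕ, 1 ≤ n → ∀ V : Set (EuclideanSpace ℝ (Fin n)), Convex ℝ V → IsCompact V →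
    0 ∈ interior V → ∫ x in V, x ∂(stdGaussian (EuclideanSpace ℝ (Fin n))) = 0 →
      beta V ≤ ENNReal.ofReal (g (stdGaussian (EuclideanSpace ℝ (Fin n)) V).toReal)

/-- an explicit bound -/
noncomputable def bound (p : ℝ) : ℝ := 100 * √2 * (1 + 4 * √(Real.log (100 / p ^ 2)) / p ^ 2)

/-- **Positive answer to Q1**, together with an explicit bound valid for every closed convex set
with positive Gaussian measure and Gaussian barycentre at the origin, and any number of vectors. -/
theorem result : Q1 ∧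
    ∀ (n : ℕ) (V : Set (EuclideanSpace ℝ (Fin n))), Convex ℝ V → IsClosed V →
      0 < (stdGaussian (EuclideanSpace ℝ (Fin n)) V).toReal →
      ∫ x in V, x ∂(stdGaussian (EuclideanSpace ℝ (Fin n))) = 0 →
      ∀ (m : ℕ) (u : Fin m → EuclideanSpace ℝ (Fin n)), (∀ i, ‖u i‖ ≤ 1) →
        ∃ ε : Fin m → ℝ, (∀ i, ε i = 1 ∨ ε i = -1) ∧
          ∑ i, ε i • u i ∈ bound (stdGaussian (EuclideanSpace ℝ (Fin n)) V).toReal • V := by
  constructor
  · refine ⟨Pool.Agent.X166.BZ.bd, fun p hp q _ hpq => Pool.Agent.X166.BZ.bd_anti hp.1 hpq,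
      fun p hp => (Pool.Agent.X166.BZ.bd_pos p hp.1).le, ?_⟩
    intro n _ V hc hV h0 hb
    have hp := Pool.Agent.X166.BZ.ga_pos n V ⟨0, h0⟩
    exact Pool.Agent.X166.BZ.beta_le V _ (Pool.Agent.X166.BZ.bd_pos _ hp)
      (fun u hu => Pool.Agent.X166.BZ.centred_balance n V hV.isClosed hc hb hp n u hu)
  · intro n V hc hV hp hb m u hu
    obtain ⟨ε, he, h⟩ := Pool.Agent.X166.BZ.centred_balance n V hV hc hb hp m u hu
    refine ⟨ε, he, _, h, ?_⟩
    have hb0 := Pool.Agent.X166.BZ.bd_pos _ hp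
    show Pool.Agent.X166.BZ.bd _ • (Pool.Agent.X166.BZ.bd _)⁻¹ • _ = _
    rw [smul_smul, mul_inv_cancel₀ hb0.ne', one_smul]

end Pool.Agent.Results.MP_0ffb5f_gt.CentredBodies
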